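import Pool.Agent.W8.LS.Stm

set_option autoImplicit false

open scoped Topology ContDiff
open Complex (I)
open Pool.Agent.W8.LS

namespace Pool.Agent.W592.LS

lemma smono (g : ℝ → ℝ) (hg : ContDiff ℝ ∞ g)
    (hd : ∀ s, 0 ≤ s → 0 < deriv (fun s => s * g s ^ 2) s) :
    StrictMonoOn (fun s => s * g s ^ 2) (Set.Ici 0) := by
  apply strictMonoOn_of_deriv_pos (convex_Ici 0)
  · have : ContDiff ℝ ∞ (fun s : ℝ => s * g s ^ 2) := contDiff_id.mul (hg.pow 2)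
    exact this.continuous.continuousOn
  · intro x hx
    rw [interior_Ici] at hx
    exact hd x (le_of_lt hx)

lemma cosh_sq_kap : (kap ^ 2 + 2 + (kap ^ 2)⁻¹) / 4 = Real.cosh (Real.pi / 2) ^ 2 := by
  have h1 : (kap)⁻¹ = Real.exp (-(Real.pi / 2)) := by rw [kap, Real.exp_neg]
  have h0 : kap ≠ 0 := by rw [kap]; exact (Real.exp_pos _).ne'
  rw [Real.cosh_eq, ← h1]
  change _ = ((kap + kap⁻¹) / 2) ^ 2
  field_simp
  ring

lemma sinh_sq_kap : (kap ^ 2 - 2 + (kap ^ 2)⁻¹) / 4 = Real.sinh (Real.pi / 2) ^ 2 := by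
  have h1 : (kap)⁻¹ = Real.exp (-(Real.pi / 2)) := by rw [kap, Real.exp_neg]
  have h0 : kap ≠ 0 := by rw [kap]; exact (Real.exp_pos _).ne'
  rw [Real.sinh_eq, ← h1]
  change _ = ((kap - kap⁻¹) / 2) ^ 2
  field_simp
  ring

lemma cosh_re_im (z : ℂ) :
    (Complex.cosh (2 * (Real.pi : ℂ) * z)).re
        = Real.cosh (2 * Real.pi * z.re) * Real.cos (2 * Real.pi * z.im) ∧
    (Complex.cosh (2 * (Real.pi : ℂ) * z)).im
        = Real.sinh (2 * Real.pi * z.re) * Real.sin (2 * Real.pi * z.im) := by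
  have hz : (2 * (Real.pi : ℂ) * z)
      = ((2 * Real.pi * z.re : ℝ) : ℂ) + ((2 * Real.pi * z.im : ℝ) : ℂ) * I := by
    conv_lhs => rw [← Complex.re_add_im z]
    push_cast
    ring
  rw [hz, Complex.cosh_add, Complex.cosh_mul_I, Complex.sinh_mul_I, ← mul_assoc]
  constructor
  · rw [Complex.add_re, Complex.mul_I_re, ← Complex.ofReal_cosh, ← Complex.ofReal_cos,
      ← Complex.ofReal_sinh, ← Complex.ofReal_sin, ← Complex.ofReal_mul, ← Complex.ofReal_mul,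
      Complex.ofReal_re, Complex.ofReal_im]
    ring
  · rw [Complex.add_im, Complex.mul_I_im, ← Complex.ofReal_cosh, ← Complex.ofReal_cos,
      ← Complex.ofReal_sinh, ← Complex.ofReal_sin, ← Complex.ofReal_mul, ← Complex.ofReal_mul,
      Complex.ofReal_im, Complex.ofReal_re]
    ring

lemma gab_re_im (α β : ℝ → ℝ) (ζ : ℂ) :
    (Gab α β ζ).re = α (‖ζ‖ ^ 2) * ζ.re ∧ (Gab α β ζ).im = β (‖ζ‖ ^ 2) * ζ.im := by
  unfold Gab
  constructor <;> simp

lemma ell_le (A B a b x y s : ℝ) (hA : 0 ≤ A) (hB : 0 ≤ B) (hs : s = x ^ 2 + y ^ 2)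
    (h1 : s * a ^ 2 ≤ A) (h2 : s * b ^ 2 ≤ B) :
    B * (a * x) ^ 2 + A * (b * y) ^ 2 ≤ A * B := by
  rcases (show 0 ≤ s by rw [hs]; positivity).eq_or_lt with h | h
  · have hx : x = 0 := by nlinarith [sq_nonneg x, sq_nonneg y]
    have hy : y = 0 := by nlinarith [sq_nonneg x, sq_nonneg y]
    subst hx hy
    simp only [mul_zero, ne_eq, OfNat.ofNat_ne_zero, not_false_eq_true, zero_pow, add_zero]
    positivity
  · have h3 : s * (B * (a * x) ^ 2 + A * (b * y) ^ 2) ≤ s * (A * B) := by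
      have e1 : B * x ^ 2 * (s * a ^ 2) ≤ B * x ^ 2 * A :=
        mul_le_mul_of_nonneg_left h1 (by positivity)
      have e2 : A * y ^ 2 * (s * b ^ 2) ≤ A * y ^ 2 * B :=
        mul_le_mul_of_nonneg_left h2 (by positivity)
      calc s * (B * (a * x) ^ 2 + A * (b * y) ^ 2)
          = B * x ^ 2 * (s * a ^ 2) + A * y ^ 2 * (s * b ^ 2) := by ring
        _ ≤ B * x ^ 2 * A + A * y ^ 2 * B := add_le_add e1 e2
        _ = s * (A * B) := by rw [hs]; ring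
    exact le_of_mul_le_mul_left h3 h

lemma ell_lt (A B a b x y s : ℝ) (hA : 0 < A) (hB : 0 < B) (hs : s = x ^ 2 + y ^ 2)
    (h1 : s * a ^ 2 < A) (h2 : s * b ^ 2 < B) :
    B * (a * x) ^ 2 + A * (b * y) ^ 2 < A * B := by
  rcases (show 0 ≤ s by rw [hs]; positivity).eq_or_lt with h | h
  · have hx : x = 0 := by nlinarith [sq_nonneg x, sq_nonneg y]
    have hy : y = 0 := by nlinarith [sq_nonneg x, sq_nonneg y]
    subst hx hy
    simp only [mul_zero, ne_eq, OfNat.ofNat_ne_zero, not_false_eq_true, zero_pow, add_zero]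
    positivity
  · have h3 : s * (B * (a * x) ^ 2 + A * (b * y) ^ 2) < s * (A * B) := by
      have hxy : 0 < x ^ 2 ∨ 0 < y ^ 2 := by
        by_contra hc
        push Not at hc
        nlinarith [sq_nonneg x, sq_nonneg y]
      have key : s * (B * (a * x) ^ 2 + A * (b * y) ^ 2)
          = B * x ^ 2 * (s * a ^ 2) + A * y ^ 2 * (s * b ^ 2) := by ring
      have key2 : s * (A * B) = B * x ^ 2 * A + A * y ^ 2 * B := by rw [hs]; ring
      rw [key, key2]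
      rcases hxy with hx | hy
      · apply add_lt_add_of_lt_of_le
        · exact mul_lt_mul_of_pos_left h1 (by positivity)
        · exact mul_le_mul_of_nonneg_left h2.le (by positivity)
      · apply add_lt_add_of_le_of_lt
        · exact mul_le_mul_of_nonneg_left h1.le (by positivity)
        · exact mul_lt_mul_of_pos_left h2 (by positivity)
    exact lt_of_mul_lt_mul_left h3 h.le

lemma quarter (X : ℝ) (h : 1 / 4 ≤ |X|) :
    Real.cosh (Real.pi / 2) ^ 2 ≤ Real.cosh (2 * Real.pi * X) ^ 2 ∧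
    Real.sinh (Real.pi / 2) ^ 2 ≤ Real.sinh (2 * Real.pi * X) ^ 2 := by
  have hpi := Real.pi_pos
  have habs : |Real.pi / 2| ≤ |2 * Real.pi * X| := by
    rw [abs_mul, abs_of_pos (by positivity : 0 < Real.pi / 2),
      abs_of_pos (by positivity : 0 < 2 * Real.pi)]
    nlinarith
  have hc : Real.cosh (Real.pi / 2) ≤ Real.cosh (2 * Real.pi * X) := Real.cosh_le_cosh.2 habs
  have h1 := Real.cosh_sq (Real.pi / 2)
  have h2 := Real.cosh_sq (2 * Real.pi * X)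
  have h3 : Real.cosh (Real.pi / 2) ^ 2 ≤ Real.cosh (2 * Real.pi * X) ^ 2 :=
    pow_le_pow_left₀ (Real.cosh_pos _).le hc 2
  exact ⟨h3, by linarith⟩

lemma quarter' (X : ℝ) (h : 1 / 4 < |X|) :
    Real.cosh (Real.pi / 2) ^ 2 < Real.cosh (2 * Real.pi * X) ^ 2 ∧
    Real.sinh (Real.pi / 2) ^ 2 < Real.sinh (2 * Real.pi * X) ^ 2 := by
  have hpi := Real.pi_pos
  have habs : |Real.pi / 2| < |2 * Real.pi * X| := by
    rw [abs_mul, abs_of_pos (by positivity : 0 < Real.pi / 2),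
      abs_of_pos (by positivity : 0 < 2 * Real.pi)]
    nlinarith
  have hc : Real.cosh (Real.pi / 2) < Real.cosh (2 * Real.pi * X) := Real.cosh_lt_cosh.2 habs
  have h1 := Real.cosh_sq (Real.pi / 2)
  have h2 := Real.cosh_sq (2 * Real.pi * X)
  have h3 : Real.cosh (Real.pi / 2) ^ 2 < Real.cosh (2 * Real.pi * X) ^ 2 :=
    pow_lt_pow_left₀ hc (Real.cosh_pos _).le two_ne_zero
  exact ⟨h3, by linarith⟩

theorem GabRe_proof : GabRe := by
  intro hK α β h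
  obtain ⟨ha, hb, _, _, hda, hdb, hA, hB⟩ := h
  have hK' : (4 : ℝ) < kap := hK
  have h16 : (16 : ℝ) ≤ kap ^ 2 := by nlinarith
  have hk0 : (0 : ℝ) ≤ kap ^ 2 := by positivity
  have mA := smono α ha hda
  have mB := smono β hb hdb
  have eA : kap ^ 2 * α (kap ^ 2) ^ 2 = Real.cosh (Real.pi / 2) ^ 2 := by
    rw [hA _ h16, cosh_sq_kap]
  have eB : kap ^ 2 * β (kap ^ 2) ^ 2 = Real.sinh (Real.pi / 2) ^ 2 := by
    rw [hB _ h16, sinh_sq_kap]
  have pA : 0 < Real.cosh (Real.pi / 2) ^ 2 := by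
    have := Real.cosh_pos (Real.pi / 2); positivity
  have pB : 0 < Real.sinh (Real.pi / 2) ^ 2 := by
    have : 0 < Real.sinh (Real.pi / 2) := Real.sinh_pos_iff.2 (by have := Real.pi_pos; positivity)
    positivity
  have hn : ∀ ζ : ℂ, ‖ζ‖ ^ 2 = ζ.re ^ 2 + ζ.im ^ 2 := by
    intro ζ
    rw [← Complex.normSq_eq_norm_sq, Complex.normSq_apply]
    ring
  constructor
  · intro ζ z hζ hw
    by_contra hc
    push Not at hc
    obtain ⟨q1, q2⟩ := quarter' z.re hc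
    obtain ⟨c1, c2⟩ := cosh_re_im z
    obtain ⟨g1, g2⟩ := gab_re_im α β ζ
    have hs : ‖ζ‖ ^ 2 ≤ kap ^ 2 := pow_le_pow_left₀ (norm_nonneg _) hζ 2
    have i1 : ‖ζ‖ ^ 2 * α (‖ζ‖ ^ 2) ^ 2 ≤ Real.cosh (Real.pi / 2) ^ 2 := by
      rw [← eA]; exact mA.monotoneOn (by simp : ‖ζ‖ ^ 2 ∈ Set.Ici (0:ℝ)) hk0 hs
    have i2 : ‖ζ‖ ^ 2 * β (‖ζ‖ ^ 2) ^ 2 ≤ Real.sinh (Real.pi / 2) ^ 2 := by
      rw [← eB]; exact mB.monotoneOn (by simp : ‖ζ‖ ^ 2 ∈ Set.Ici (0:ℝ)) hk0 hs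
    have := ell_le _ _ (α (‖ζ‖ ^ 2)) (β (‖ζ‖ ^ 2)) ζ.re ζ.im _ pA.le pB.le (hn ζ) i1 i2
    rw [← g1, ← g2, ← hw, c1, c2] at this
    have hcs := Real.cos_sq_add_sin_sq (2 * Real.pi * z.im)
    set C := Real.cosh (2 * Real.pi * z.re)
    set S := Real.sinh (2 * Real.pi * z.re)
    set c := Real.cos (2 * Real.pi * z.im)
    set t := Real.sin (2 * Real.pi * z.im)
    set A := Real.cosh (Real.pi / 2) ^ 2
    set B := Real.sinh (Real.pi / 2) ^ 2
    have h1 : A * B = B * A * c ^ 2 + A * B * t ^ 2 := by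
      have : A * B * (c ^ 2 + t ^ 2) = A * B := by rw [hcs, mul_one]
      linarith
    have h2 : B * (C * c) ^ 2 + A * (S * t) ^ 2 = B * c ^ 2 * C ^ 2 + A * t ^ 2 * S ^ 2 := by ring
    have hct : 0 < c ^ 2 ∨ 0 < t ^ 2 := by
      by_contra hcc
      push Not at hcc
      linarith [hcc.1, hcc.2]
    rcases hct with hc' | ht'
    · have e1 : B * c ^ 2 * A < B * c ^ 2 * C ^ 2 := mul_lt_mul_of_pos_left q1 (by positivity)
      have e2 : A * t ^ 2 * B ≤ A * t ^ 2 * S ^ 2 :=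
        mul_le_mul_of_nonneg_left q2.le (by positivity)
      linarith
    · have e1 : B * c ^ 2 * A ≤ B * c ^ 2 * C ^ 2 :=
        mul_le_mul_of_nonneg_left q1.le (by positivity)
      have e2 : A * t ^ 2 * B < A * t ^ 2 * S ^ 2 := mul_lt_mul_of_pos_left q2 (by positivity)
      linarith
  · intro ζ z hζ hw
    by_contra hc
    push Not at hc
    obtain ⟨q1, q2⟩ := quarter z.re hc
    obtain ⟨c1, c2⟩ := cosh_re_im z
    obtain ⟨g1, g2⟩ := gab_re_im α β ζ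
    have hs : ‖ζ‖ ^ 2 < kap ^ 2 := pow_lt_pow_left₀ hζ (norm_nonneg _) two_ne_zero
    have i1 : ‖ζ‖ ^ 2 * α (‖ζ‖ ^ 2) ^ 2 < Real.cosh (Real.pi / 2) ^ 2 := by
      rw [← eA]; exact mA (by simp : ‖ζ‖ ^ 2 ∈ Set.Ici (0:ℝ)) hk0 hs
    have i2 : ‖ζ‖ ^ 2 * β (‖ζ‖ ^ 2) ^ 2 < Real.sinh (Real.pi / 2) ^ 2 := by
      rw [← eB]; exact mB (by simp : ‖ζ‖ ^ 2 ∈ Set.Ici (0:ℝ)) hk0 hs
    have := ell_lt _ _ (α (‖ζ‖ ^ 2)) (β (‖ζ‖ ^ 2)) ζ.re ζ.im _ pA pB (hn ζ) i1 i2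
    rw [← g1, ← g2, ← hw, c1, c2] at this
    have hcs := Real.cos_sq_add_sin_sq (2 * Real.pi * z.im)
    set C := Real.cosh (2 * Real.pi * z.re)
    set S := Real.sinh (2 * Real.pi * z.re)
    set c := Real.cos (2 * Real.pi * z.im)
    set t := Real.sin (2 * Real.pi * z.im)
    set A := Real.cosh (Real.pi / 2) ^ 2
    set B := Real.sinh (Real.pi / 2) ^ 2
    have h1 : A * B = B * A * c ^ 2 + A * B * t ^ 2 := by
      have : A * B * (c ^ 2 + t ^ 2) = A * B := by rw [hcs, mul_one]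
      linarith
    have h2 : B * (C * c) ^ 2 + A * (S * t) ^ 2 = B * c ^ 2 * C ^ 2 + A * t ^ 2 * S ^ 2 := by ring
    have e1 : B * c ^ 2 * A ≤ B * c ^ 2 * C ^ 2 := mul_le_mul_of_nonneg_left q1 (by positivity)
    have e2 : A * t ^ 2 * B ≤ A * t ^ 2 * S ^ 2 :=
      mul_le_mul_of_nonneg_left q2 (by positivity)
    linarith

end Pool.Agent.W592.LS
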